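import Mathlib

set_option autoImplicit false

namespace Pool.Agent.H42.MobQ

open Finset

/-! Mobile general position in hypercubes: definitions, the buffer coordinate, counting. -/

/-- General position: no vertex of `S` lies on a shortest path between two others. -/
def GenPos {V : Type} (G : SimpleGraph V) (S : Finset V) : Prop :=
  ∀ x ∈ S, ∀ y ∈ S, ∀ z ∈ S, x ≠ y → y ≠ z → x ≠ z → G.dist x z ≠ G.dist x y + G.dist y z

/-- One legal move: a robot at `u` goes to an unoccupied neighbour `v`, and the new set is in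
general position. -/
def Legal {V : Type} [DecidableEq V] (G : SimpleGraph V) (S S' : Finset V) : Prop :=
  ∃ u ∈ S, ∃ v, v ∉ S ∧ G.Adj u v ∧ S' = insert v (S.erase u) ∧ GenPos G S'

/-- `Hist G S C W`: some finite sequence of legal moves leads from `S` to `C`, and `W` is the set
of all vertices occupied at some stage (the first one included). -/
inductive Hist {V : Type} [DecidableEq V] (G : SimpleGraph V) (S : Finset V) :
    Finset V → Finset V → Prop
  | start : Hist G S S S
  | move {C W C' : Finset V} : Hist G S C W → Legal G C C' → Hist G S C' (W ∪ C')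

/-- Mobile general position set. -/
def Mobile {V : Type} [DecidableEq V] [Fintype V] (G : SimpleGraph V) (S : Finset V) : Prop :=
  GenPos G S ∧ ∃ C, Hist G S C Finset.univ

/-- General position number. -/
noncomputable def gp {V : Type} (G : SimpleGraph V) : ℕ :=
  sSup {k | ∃ S : Finset V, GenPos G S ∧ S.card = k}

/-- Mobile general position number. -/
noncomputable def mob {V : Type} [DecidableEq V] [Fintype V] (G : SimpleGraph V) : ℕ :=
  sSup {k | ∃ S : Finset V, Mobile G S ∧ S.card = k}

/-- The hypercube. -/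
def Q (n : ℕ) : SimpleGraph (Fin n → Bool) where
  Adj x y := hammingDist x y = 1
  symm := ⟨fun x y h => by rw [hammingDist_comm]; exact h⟩
  loopless := ⟨fun x h => by simp at h⟩

theorem key {n : ℕ} (x y z : Fin n → Bool) :
    hammingDist x y + hammingDist y z =
      hammingDist x z + 2 * (univ.filter (fun i => x i = z i ∧ y i ≠ x i)).card := by
  classical
  unfold hammingDist
  rw [Finset.card_filter, Finset.card_filter, Finset.card_filter, Finset.card_filter,
    ← Finset.sum_add_distrib, Finset.mul_sum, ← Finset.sum_add_distrib]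
  refine Finset.sum_congr rfl fun i _ => ?_
  cases x i <;> cases y i <;> cases z i <;> simp

/-- `y` is not between `x` and `z`. -/
def Sep {n : ℕ} (x y z : Fin n → Bool) : Prop := ∃ i, x i = z i ∧ y i ≠ x i

theorem upd_dist {n : ℕ} (x : Fin n → Bool) (i : Fin n) (b : Bool) (hb : b ≠ x i) :
    hammingDist x (Function.update x i b) = 1 := by
  classical
  unfold hammingDist
  rw [Finset.card_eq_one]
  refine ⟨i, ?_⟩
  ext j
  simp only [mem_filter, mem_univ, true_and, mem_singleton]
  constructor
  · intro h
    by_contra hj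
    exact h (by rw [Function.update_of_ne hj])
  · rintro rfl
    simpa using hb.symm

theorem walk_len {n : ℕ} {x y : Fin n → Bool} (p : (Q n).Walk x y) :
    hammingDist x y ≤ p.length := by
  induction p with
  | nil => simp
  | @cons u v w h p ih =>
    have h1 : hammingDist u v = 1 := h
    have h2 := hammingDist_triangle u v w
    simp only [SimpleGraph.Walk.length_cons]
    omega

theorem exists_walk {n : ℕ} : ∀ (d : ℕ) (x y : Fin n → Bool), hammingDist x y = d →
    ∃ p : (Q n).Walk x y, p.length = d := by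
  intro d
  induction d with
  | zero =>
    intro x y h
    obtain rfl : x = y := hammingDist_eq_zero.mp h
    exact ⟨SimpleGraph.Walk.nil, rfl⟩
  | succ d ih =>
    intro x y h
    have hne : x ≠ y := by
      rintro rfl
      simp at h
    obtain ⟨i, hi⟩ := Function.ne_iff.mp hne
    have h1 := upd_dist x i (y i) (fun e => hi e.symm)
    have h2 := key x (Function.update x i (y i)) y
    have h3 : (univ.filter (fun j => x j = y j ∧ Function.update x i (y i) j ≠ x j)) = ∅ := by
      rw [Finset.filter_eq_empty_iff]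
      rintro j - ⟨hj1, hj2⟩
      by_cases hj : j = i
      · subst hj
        exact hi hj1
      · exact hj2 (by rw [Function.update_of_ne hj])
    rw [h3] at h2
    obtain ⟨p, hp⟩ := ih (Function.update x i (y i)) y (by simp at h2; omega)
    have hadj : (Q n).Adj x (Function.update x i (y i)) := h1
    refine ⟨SimpleGraph.Walk.cons hadj p, ?_⟩
    rw [SimpleGraph.Walk.length_cons, hp]

theorem dist_eq {n : ℕ} (x y : Fin n → Bool) : (Q n).dist x y = hammingDist x y := by
  obtain ⟨p, hp⟩ := exists_walk _ x y rfl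
  apply le_antisymm
  · rw [← hp]
    exact SimpleGraph.dist_le p
  · obtain ⟨q, hq⟩ := (SimpleGraph.Walk.reachable p).exists_walk_length_eq_dist
    rw [← hq]
    exact walk_len q

theorem sep_iff {n : ℕ} (x y z : Fin n → Bool) :
    Sep x y z ↔ (Q n).dist x z ≠ (Q n).dist x y + (Q n).dist y z := by
  classical
  rw [dist_eq, dist_eq, dist_eq]
  have h := key x y z
  unfold Sep
  constructor
  · rintro ⟨i, hi⟩ he
    have : 0 < (univ.filter (fun i => x i = z i ∧ y i ≠ x i)).card :=
      Finset.card_pos.mpr ⟨i, by simpa using hi⟩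
    omega
  · intro he
    by_contra hc
    push Not at hc
    have : (univ.filter (fun i => x i = z i ∧ y i ≠ x i)) = ∅ := by
      rw [Finset.filter_eq_empty_iff]
      rintro j - ⟨hj1, hj2⟩
      exact hj2 (hc j hj1)
    rw [this] at h
    simp at h
    exact he h.symm

/-- a family of robots with all triples separated -/
def Good {n : ℕ} {ι : Type} (f : ι → Fin n → Bool) : Prop :=
  Function.Injective f ∧ ∀ a b c, a ≠ b → b ≠ c → a ≠ c → Sep (f a) (f b) (f c)

/-- positions of the robots -/
def im {n : ℕ} {ι : Type} [Fintype ι] (f : ι → Fin n → Bool) : Finset (Fin n → Bool) :=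
  univ.image f

theorem good_genPos {n : ℕ} {ι : Type} [Fintype ι] {f : ι → Fin n → Bool} (hf : Good f) :
    GenPos (Q n) (im f) := by
  classical
  intro x hx y hy z hz hxy hyz hxz
  simp only [im, mem_image, mem_univ, true_and] at hx hy hz
  obtain ⟨a, rfl⟩ := hx
  obtain ⟨b, rfl⟩ := hy
  obtain ⟨c, rfl⟩ := hz
  rw [← sep_iff]
  exact hf.2 a b c (fun e => hxy (by rw [e])) (fun e => hyz (by rw [e])) (fun e => hxz (by rw [e]))

theorem step {n : ℕ} {ι : Type} [Fintype ι] [DecidableEq ι] {f : ι → Fin n → Bool} (hf : Good f)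
    (a : ι) (i : Fin n) (b : Bool)
    (hg : Good (Function.update f a (Function.update (f a) i b))) :
    Relation.ReflTransGen (Legal (Q n)) (im f)
      (im (Function.update f a (Function.update (f a) i b))) := by
  classical
  by_cases hb : b = f a i
  · have : Function.update f a (Function.update (f a) i b) = f := by
      rw [hb, Function.update_eq_self, Function.update_eq_self]
    rw [this]
  · apply Relation.ReflTransGen.single
    refine ⟨f a, by simp [im], Function.update (f a) i b, ?_, upd_dist _ _ _ hb, ?_, good_genPos hg⟩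
    · simp only [im, mem_image, mem_univ, true_and, not_exists]
      intro c hc
      by_cases hca : c = a
      · subst hca
        have := congrFun hc i
        simp only [Function.update_self] at this
        exact hb this.symm
      · have h1 := hg.1 (a₁ := c) (a₂ := a) (by
          rw [Function.update_self, Function.update_of_ne hca]
          exact hc)
        exact hca h1
    · ext v
      simp only [im, mem_image, mem_univ, true_and, mem_insert, mem_erase]
      constructor
      · rintro ⟨c, rfl⟩
        by_cases hca : c = a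
        · subst hca
          left
          rw [Function.update_self]
        · right
          rw [Function.update_of_ne hca]
          exact ⟨fun e => hca (hf.1 e), c, rfl⟩
      · rintro (rfl | ⟨h1, c, rfl⟩)
        · exact ⟨a, by rw [Function.update_self]⟩
        · exact ⟨c, by rw [Function.update_of_ne (fun e => h1 (by rw [e]))]⟩

theorem sweep {n : ℕ} {ι : Type} [Fintype ι] [DecidableEq ι] (f : ι → Fin n → Bool) (i : Fin n)
    (hfree : ∀ h : ι → Bool, Good (fun a => Function.update (f a) i (h a))) (h h' : ι → Bool) :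
    Relation.ReflTransGen (Legal (Q n)) (im (fun a => Function.update (f a) i (h a)))
      (im (fun a => Function.update (f a) i (h' a))) := by
  classical
  have key : ∀ A : Finset ι, Relation.ReflTransGen (Legal (Q n))
      (im (fun a => Function.update (f a) i (h a)))
      (im (fun a => Function.update (f a) i (if a ∈ A then h' a else h a))) := by
    intro A
    induction A using Finset.induction_on with
    | empty => simp; rfl
    | insert a A ha ih =>
      refine ih.trans ?_
      have e : (fun c => Function.update (f c) i (if c ∈ insert a A then h' c else h c)) =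
          Function.update (fun c => Function.update (f c) i (if c ∈ A then h' c else h c)) a
            (Function.update ((fun c => Function.update (f c) i
              (if c ∈ A then h' c else h c)) a) i (h' a)) := by
        funext c
        by_cases hca : c = a
        · subst hca
          simp [Function.update_idem]
        · rw [Function.update_of_ne hca]
          simp [hca]
      rw [e]
      apply step (hfree _)
      rw [← e]
      exact hfree _
  have := key univ
  simpa using this

/-- The configuration with pattern `t` shifted by `s` and buffer bits `h`. -/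
def F {n : ℕ} {ι : Type} (t : ι → Fin n → Bool) (s : Fin n → Bool) (h : ι → Bool) :
    ι → Fin (n + 1) → Bool :=
  fun a => Fin.cons (h a) (fun j => xor (t a j) (s j))

theorem good_F {n : ℕ} {ι : Type} {t : ι → Fin n → Bool} (ht : Good t) (s : Fin n → Bool)
    (h : ι → Bool) : Good (F t s h) := by
  constructor
  · intro a b hab
    apply ht.1
    funext j
    have := congrFun hab j.succ
    simp only [F, Fin.cons_succ] at this
    revert this
    cases t a j <;> cases t b j <;> cases s j <;> simp
  · intro a b c hab hbc hac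
    obtain ⟨j, hj⟩ := ht.2 a b c hab hbc hac
    refine ⟨j.succ, ?_⟩
    simp only [F, Fin.cons_succ]
    revert hj
    cases t a j <;> cases t b j <;> cases t c j <;> cases s j <;> simp

/-- With the buffer holding coordinate `j`, the values at `j` are free. -/
theorem good_B {n : ℕ} {ι : Type} {t : ι → Fin n → Bool} (ht : Good t) (s : Fin n → Bool)
    (j : Fin n) (h : ι → Bool) :
    Good (fun a => Function.update (F t s (fun a => t a j) a) j.succ (h a)) := by
  have hv : ∀ a l, Function.update (F t s (fun a => t a j) a) j.succ (h a) (Fin.succ l) =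
      if l = j then h a else xor (t a l) (s l) := by
    intro a l
    by_cases hl : l = j
    · subst hl
      simp
    · rw [Function.update_of_ne (fun e => hl (Fin.succ_injective _ e)), if_neg hl]
      simp [F]
  have hv0 : ∀ a, Function.update (F t s (fun a => t a j) a) j.succ (h a) 0 = t a j := by
    intro a
    rw [Function.update_of_ne (Fin.succ_ne_zero j).symm]
    simp [F]
  constructor
  · intro a b hab
    apply ht.1
    funext l
    by_cases hl : l = j
    · subst hl
      have := congrFun hab 0
      simp only [hv0] at this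
      exact this
    · have := congrFun hab l.succ
      simp only [hv, if_neg hl] at this
      revert this
      cases t a l <;> cases t b l <;> cases s l <;> simp
  · intro a b c hab hbc hac
    obtain ⟨l, hl⟩ := ht.2 a b c hab hbc hac
    by_cases hlj : l = j
    · subst hlj
      refine ⟨0, ?_⟩
      simp only [hv0]
      exact hl
    · refine ⟨l.succ, ?_⟩
      simp only [hv, if_neg hlj]
      revert hl
      cases t a l <;> cases t b l <;> cases t c l <;> cases s l <;> simp

theorem buf {n : ℕ} {ι : Type} [Fintype ι] [DecidableEq ι] {t : ι → Fin n → Bool} (ht : Good t)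
    (s : Fin n → Bool) (h h' : ι → Bool) :
    Relation.ReflTransGen (Legal (Q (n + 1))) (im (F t s h)) (im (F t s h')) := by
  have e : ∀ g : ι → Bool, F t s g = fun a => Function.update (F t s h a) 0 (g a) := by
    intro g
    funext a
    simp [F]
  have := sweep (F t s h) 0 (fun g => by rw [← e g]; exact good_F ht s g) h h'
  rw [← e, ← e] at this
  exact this

theorem coord {n : ℕ} {ι : Type} [Fintype ι] [DecidableEq ι] {t : ι → Fin n → Bool} (ht : Good t)
    (s : Fin n → Bool) (j : Fin n) (v : Bool) (h : ι → Bool) :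
    Relation.ReflTransGen (Legal (Q (n + 1))) (im (F t s h)) (im (F t (Function.update s j v) h)) := by
  refine (buf ht s h (fun a => t a j)).trans (Relation.ReflTransGen.trans ?_
    (buf ht (Function.update s j v) (fun a => t a j) h))
  have e : ∀ w : Bool, F t (Function.update s j w) (fun a => t a j) =
      fun a => Function.update (F t s (fun a => t a j) a) j.succ (xor (t a j) w) := by
    intro w
    funext a l
    refine Fin.cases ?_ (fun l => ?_) l
    · rw [Function.update_of_ne (Fin.succ_ne_zero j).symm]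
      simp [F]
    · by_cases hl : l = j
      · subst hl
        simp [F]
      · rw [Function.update_of_ne (fun e => hl (Fin.succ_injective _ e))]
        simp [F, Function.update_of_ne hl]
  have e0 : F t s (fun a => t a j) = F t (Function.update s j (s j)) (fun a => t a j) := by
    rw [Function.update_eq_self]
  rw [e v]
  conv => lhs; rw [e0, e (s j)]
  exact sweep (F t s (fun a => t a j)) j.succ (good_B ht s j) _ _

theorem conn {n : ℕ} {ι : Type} [Fintype ι] [DecidableEq ι] {t : ι → Fin n → Bool} (ht : Good t)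
    (s s' : Fin n → Bool) (h h' : ι → Bool) :
    Relation.ReflTransGen (Legal (Q (n + 1))) (im (F t s h)) (im (F t s' h')) := by
  refine Relation.ReflTransGen.trans ?_ (buf ht s' h h')
  have key : ∀ A : Finset (Fin n), Relation.ReflTransGen (Legal (Q (n + 1))) (im (F t s h))
      (im (F t (fun j => if j ∈ A then s' j else s j) h)) := by
    intro A
    induction A using Finset.induction_on with
    | empty => simp; rfl
    | insert j A hj ih =>
      refine ih.trans ?_
      have e : (fun l => if l ∈ insert j A then s' l else s l) =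
          Function.update (fun l => if l ∈ A then s' l else s l) j (s' j) := by
        funext l
        by_cases hl : l = j
        · subst hl
          simp
        · rw [Function.update_of_ne hl]
          simp [hl]
      rw [e]
      exact coord ht _ j _ h
  have := key univ
  simpa using this

theorem hist_trans {V : Type} [DecidableEq V] {G : SimpleGraph V} {S C W C' : Finset V}
    (h : Hist G S C W) (h' : Relation.ReflTransGen (Legal G) C C') :
    ∃ W', Hist G S C' W' ∧ W ⊆ W' ∧ C' ⊆ W' := by
  induction h' with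
  | refl =>
    refine ⟨W, h, subset_rfl, ?_⟩
    cases h with
    | start => exact subset_rfl
    | move _ _ => exact subset_union_right
  | tail _ hl ih =>
    obtain ⟨W', h1, h2, h3⟩ := ih
    exact ⟨_, Hist.move h1 hl, h2.trans subset_union_left, subset_union_right⟩

theorem mobile_F {n : ℕ} {ι : Type} [Fintype ι] [DecidableEq ι] [Nonempty ι]
    {t : ι → Fin n → Bool} (ht : Good t) (s : Fin n → Bool) (h : ι → Bool) :
    Mobile (Q (n + 1)) (im (F t s h)) := by
  classical
  refine ⟨good_genPos (good_F ht s h), ?_⟩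
  have key : ∀ A : Finset (Fin (n + 1) → Bool), ∃ s' h' W,
      Hist (Q (n + 1)) (im (F t s h)) (im (F t s' h')) W ∧ A ⊆ W := by
    intro A
    induction A using Finset.induction_on with
    | empty => exact ⟨s, h, _, Hist.start, by simp⟩
    | insert w A _ ih =>
      obtain ⟨s', h', W, h1, h2⟩ := ih
      obtain ⟨a⟩ := ‹Nonempty ι›
      obtain ⟨W', h3, h4, h5⟩ := hist_trans h1
        (conn ht s' (fun j => xor (t a j) (w j.succ)) h' (fun _ => w 0))
      refine ⟨_, _, W', h3, ?_⟩
      rw [Finset.insert_subset_iff]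
      refine ⟨h5 ?_, h2.trans h4⟩
      simp only [im, mem_image, mem_univ, true_and]
      refine ⟨a, ?_⟩
      funext l
      refine Fin.cases ?_ (fun l => ?_) l
      · simp [F]
      · simp only [F, Fin.cons_succ]
        cases t a l <;> simp
  obtain ⟨s', h', W, h1, h2⟩ := key univ
  have : W = univ := by
    apply Finset.eq_univ_of_forall
    intro v
    exact h2 (mem_univ v)
  rw [this] at h1
  exact ⟨_, h1⟩

theorem bdd_gp {V : Type} [Fintype V] (G : SimpleGraph V) :
    BddAbove {k | ∃ S : Finset V, GenPos G S ∧ S.card = k} := by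
  refine ⟨Fintype.card V, ?_⟩
  rintro k ⟨S, _, rfl⟩
  exact Finset.card_le_univ S

theorem bdd_mob {V : Type} [DecidableEq V] [Fintype V] (G : SimpleGraph V) :
    BddAbove {k | ∃ S : Finset V, Mobile G S ∧ S.card = k} := by
  refine ⟨Fintype.card V, ?_⟩
  rintro k ⟨S, _, rfl⟩
  exact Finset.card_le_univ S

theorem gp_le_mob (n : ℕ) : gp (Q n) ≤ mob (Q (n + 1)) := by
  classical
  unfold gp
  have hne0 : ({k | ∃ S : Finset (Fin n → Bool), GenPos (Q n) S ∧ S.card = k} : Set ℕ).Nonempty :=
    ⟨0, ∅, fun x hx => absurd hx (Finset.notMem_empty x), Finset.card_empty⟩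
  apply csSup_le hne0
  rintro k ⟨S, hS, rfl⟩
  rcases S.eq_empty_or_nonempty with rfl | hne
  · simp
  have : Nonempty S := hne.to_subtype
  have ht : Good (fun a : S => (a : Fin n → Bool)) := by
    refine ⟨Subtype.val_injective, ?_⟩
    intro a b c hab hbc hac
    rw [sep_iff]
    exact hS _ a.2 _ b.2 _ c.2 (fun e => hab (Subtype.ext e)) (fun e => hbc (Subtype.ext e))
      (fun e => hac (Subtype.ext e))
  apply le_csSup (bdd_mob _)
  refine ⟨_, mobile_F ht (fun _ => false) (fun _ => false), ?_⟩
  rw [im, Finset.card_image_of_injective _ (good_F ht _ _).1]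
  simp

theorem mob_le_gp {V : Type} [DecidableEq V] [Fintype V] (G : SimpleGraph V) : mob G ≤ gp G := by
  unfold mob
  by_cases h : ({k | ∃ S : Finset V, Mobile G S ∧ S.card = k} : Set ℕ).Nonempty
  · apply csSup_le h
    rintro k ⟨S, hS, rfl⟩
    exact le_csSup (bdd_gp G) ⟨S, hS.1, rfl⟩
  · rw [Set.not_nonempty_iff_eq_empty] at h
    rw [h]
    simp

theorem gp_upper {n : ℕ} (A : Finset (Fin n)) (S : Finset (Fin n → Bool)) (hS : GenPos (Q n) S) :
    S.card ≤ 2 ^ A.card + 2 ^ Aᶜ.card := by
  classical
  let P : (Fin n → Bool) → Prop := fun y => ∃ x ∈ S, x ≠ y ∧ ∀ i ∈ A, x i = y i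
  have hsplit : S.card = (S.filter (fun y => ¬ P y)).card + (S.filter P).card := by
    rw [add_comm]
    exact (Finset.card_filter_add_card_filter_not P).symm
  rw [hsplit]
  apply Nat.add_le_add
  · rw [← Finset.card_powerset]
    apply Finset.card_le_card_of_injOn (fun y => A.filter (fun i => y i = true))
    · intro y _
      exact Finset.mem_coe.mpr (Finset.mem_powerset.mpr (Finset.filter_subset _ _))
    · intro x hx y hy hxy
      simp only [coe_filter, Set.mem_ofPred_eq] at hx hy
      by_contra hne
      apply hy.2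
      refine ⟨x, hx.1, hne, ?_⟩
      intro i hi
      have h1 := congrArg (fun T => i ∈ T) hxy
      simp only [mem_filter, hi, true_and, eq_iff_iff] at h1
      cases hx1 : x i <;> cases hy1 : y i <;> simp_all
  · rw [← Finset.card_powerset]
    apply Finset.card_le_card_of_injOn (fun y => Aᶜ.filter (fun i => y i = true))
    · intro y _
      exact Finset.mem_coe.mpr (Finset.mem_powerset.mpr (Finset.filter_subset _ _))
    · intro z hz y hy hzy
      simp only [coe_filter, Set.mem_ofPred_eq] at hz hy
      by_contra hne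
      obtain ⟨x, hxS, hxy, hxA⟩ := hy.2
      have hB : ∀ i, i ∉ A → z i = y i := by
        intro i hi
        have h1 := congrArg (fun T => i ∈ T) hzy
        simp only [mem_filter, mem_compl, hi, not_false_eq_true, true_and, eq_iff_iff] at h1
        cases hx1 : z i <;> cases hy1 : y i <;> simp_all
      by_cases hxz : x = z
      · subst hxz
        apply hxy
        funext i
        by_cases hi : i ∈ A
        · exact hxA i hi
        · exact hB i hi
      · have := hS x hxS y hy.1 z hz.1 hxy (fun e => hne e.symm) hxz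
        rw [← sep_iff] at this
        obtain ⟨i, hi1, hi2⟩ := this
        by_cases hi : i ∈ A
        · exact hi2 (hxA i hi).symm
        · exact hi2 (by rw [hi1, hB i hi])

theorem surj {k : ℕ} (u v : Fin k → ZMod 2) (hu : u ≠ 0) (hv : v ≠ 0) (huv : u ≠ v)
    (p q : ZMod 2) : ∃ g : Fin k → ZMod 2, u ⬝ᵥ g = p ∧ v ⬝ᵥ g = q := by
  obtain ⟨i, hi⟩ := Function.ne_iff.mp huv
  have h01 : ∀ x : ZMod 2, x = 0 ∨ x = 1 := by decide
  have hone : ∀ x : ZMod 2, x ≠ 0 → x = 1 := by decide
  obtain ⟨j, hj⟩ := Function.ne_iff.mp hv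
  obtain ⟨l, hl⟩ := Function.ne_iff.mp hu
  have hj1 := hone _ hj
  have hl1 := hone _ hl
  rcases h01 (u i) with h1 | h1
  · have h2 : v i = 1 := hone _ (fun e => hi (by rw [h1, e]))
    refine ⟨p • Pi.single l 1 + (q - p * v l) • Pi.single i 1, ?_, ?_⟩
    · simp [dotProduct_add, dotProduct_smul, h1, hl1]
    · simp [dotProduct_add, dotProduct_smul, h2]
  · have h2 : v i = 0 := by
      rcases h01 (v i) with h | h
      · exact h
      · exact absurd (by rw [h1, h]) hi
    refine ⟨q • Pi.single j 1 + (p - q * u j) • Pi.single i 1, ?_, ?_⟩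
    · simp [dotProduct_add, dotProduct_smul, h1]
    · simp [dotProduct_add, dotProduct_smul, h2, hj1]

/-- the three quarters of bad columns -/
theorem quarter {k : ℕ} (u v : Fin k → ZMod 2) (hu : u ≠ 0) (hv : v ≠ 0) (huv : u ≠ v) :
    4 * (univ.filter (fun g : Fin k → ZMod 2 => ¬ (u ⬝ᵥ g = 1 ∧ v ⬝ᵥ g = 1))).card = 3 * 2 ^ k := by
  classical
  have hN : ∀ p q : ZMod 2, (univ.filter (fun g : Fin k → ZMod 2 => u ⬝ᵥ g = p ∧ v ⬝ᵥ g = q)).card =
      (univ.filter (fun g : Fin k → ZMod 2 => u ⬝ᵥ g = 1 ∧ v ⬝ᵥ g = 1)).card := by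
    intro p q
    obtain ⟨e, he1, he2⟩ := surj u v hu hv huv (1 - p) (1 - q)
    apply Finset.card_bij (fun g _ => g + e)
    · intro g hg
      simp only [mem_filter, mem_univ, true_and] at hg ⊢
      rw [dotProduct_add, dotProduct_add, he1, he2, hg.1, hg.2]
      constructor <;> ring
    · intro a _ b _ h
      exact add_right_cancel h
    · intro g hg
      simp only [mem_filter, mem_univ, true_and] at hg
      refine ⟨g - e, ?_, by simp⟩
      simp only [mem_filter, mem_univ, true_and]
      rw [dotProduct_sub, dotProduct_sub, he1, he2, hg.1, hg.2]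
      constructor <;> ring
  have htot : (univ : Finset (Fin k → ZMod 2)).card =
      ∑ c : ZMod 2 × ZMod 2, (univ.filter (fun g : Fin k → ZMod 2 => (u ⬝ᵥ g, v ⬝ᵥ g) = c)).card := by
    apply Finset.card_eq_sum_card_fiberwise
    intro g _
    simp
  have hsum : (univ : Finset (Fin k → ZMod 2)).card =
      4 * (univ.filter (fun g : Fin k → ZMod 2 => u ⬝ᵥ g = 1 ∧ v ⬝ᵥ g = 1)).card := by
    rw [htot, Finset.sum_congr rfl (g := fun _ =>
      (univ.filter (fun g : Fin k → ZMod 2 => u ⬝ᵥ g = 1 ∧ v ⬝ᵥ g = 1)).card)]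
    · simp
    · rintro ⟨p, q⟩ _
      rw [← hN p q]
      congr 1
      ext g
      simp [Prod.ext_iff]
  have hcard : (univ : Finset (Fin k → ZMod 2)).card = 2 ^ k := by
    simp [Finset.card_univ]
  have hadd := Finset.card_filter_add_card_filter_not (s := (univ : Finset (Fin k → ZMod 2)))
    (fun g : Fin k → ZMod 2 => u ⬝ᵥ g = 1 ∧ v ⬝ᵥ g = 1)
  omega

theorem exists_code {k n : ℕ} (h : 4 ^ k * 3 ^ n ≤ 4 ^ n) : ∃ G : Fin n → Fin k → ZMod 2,
    ∀ u v : Fin k → ZMod 2, u ≠ 0 → v ≠ 0 → u ≠ v → ∃ i, u ⬝ᵥ G i = 1 ∧ v ⬝ᵥ G i = 1 := by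
  classical
  by_contra hc
  push Not at hc
  let Pr : Finset ((Fin k → ZMod 2) × (Fin k → ZMod 2)) :=
    univ.filter (fun c => c.1 ≠ 0 ∧ c.2 ≠ 0 ∧ c.1 ≠ c.2)
  let Bd : (Fin k → ZMod 2) × (Fin k → ZMod 2) → Finset (Fin n → Fin k → ZMod 2) := fun c =>
    Fintype.piFinset (fun _ => univ.filter (fun g : Fin k → ZMod 2 => ¬ (c.1 ⬝ᵥ g = 1 ∧ c.2 ⬝ᵥ g = 1)))
  have hcov : (univ : Finset (Fin n → Fin k → ZMod 2)) ⊆ Pr.biUnion Bd := by
    intro G _
    obtain ⟨u, v, hu, hv, huv, hi⟩ := hc G
    rw [mem_biUnion]
    refine ⟨(u, v), by simp [Pr, hu, hv, huv], ?_⟩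
    simp only [Bd, Fintype.mem_piFinset, mem_filter, mem_univ, true_and]
    intro i hh
    exact hi i hh.1 hh.2
  have h1 := (Finset.card_le_card hcov).trans Finset.card_biUnion_le
  have hV : (univ : Finset (Fin n → Fin k → ZMod 2)).card = (2 ^ k) ^ n := by
    simp [Finset.card_univ]
  have h2 : ∀ c ∈ Pr, 4 ^ n * (Bd c).card = 3 ^ n * (2 ^ k) ^ n := by
    intro c hc
    simp only [Pr, mem_filter, mem_univ, true_and] at hc
    simp only [Bd, Fintype.card_piFinset_const]
    rw [← mul_pow, quarter c.1 c.2 hc.1 hc.2.1 hc.2.2, mul_pow]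
  have h3 : 4 ^ n * ∑ c ∈ Pr, (Bd c).card = Pr.card * (3 ^ n * (2 ^ k) ^ n) := by
    rw [Finset.mul_sum, Finset.sum_congr rfl h2]
    simp
  have h4 : Pr.card < 4 ^ k := by
    have : Pr.card < (univ : Finset ((Fin k → ZMod 2) × (Fin k → ZMod 2))).card := by
      apply Finset.card_lt_card
      rw [Finset.ssubset_iff_of_subset (Finset.subset_univ _)]
      exact ⟨(0, 0), mem_univ _, by simp [Pr]⟩
    have e : (univ : Finset ((Fin k → ZMod 2) × (Fin k → ZMod 2))).card = 4 ^ k := by
      simp [Finset.card_univ]
      rw [← mul_pow]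
      norm_num
    omega
  rw [hV] at h1
  have h5 : 4 ^ n * (2 ^ k) ^ n ≤ Pr.card * (3 ^ n * (2 ^ k) ^ n) := by
    rw [← h3]
    exact Nat.mul_le_mul_left _ h1
  have h6 : Pr.card * (3 ^ n * (2 ^ k) ^ n) < 4 ^ k * (3 ^ n * (2 ^ k) ^ n) :=
    Nat.mul_lt_mul_of_pos_right h4 (by positivity)
  have h7 : 4 ^ k * (3 ^ n * (2 ^ k) ^ n) ≤ 4 ^ n * (2 ^ k) ^ n := by
    rw [← mul_assoc]
    exact Nat.mul_le_mul_right _ h
  omega

theorem gp_lower {k n : ℕ} (hk : 2 ≤ k) (h : 4 ^ k * 3 ^ n ≤ 4 ^ n) : 2 ^ k ≤ gp (Q n) := by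
  classical
  obtain ⟨G, hG⟩ := exists_code h
  let f : (Fin k → ZMod 2) → Fin n → Bool := fun a i => decide (a ⬝ᵥ G i = 1)
  have hsep : ∀ a b c : Fin k → ZMod 2, a ≠ b → b ≠ c → a ≠ c → Sep (f a) (f b) (f c) := by
    intro a b c hab hbc hac
    obtain ⟨i, h1, h2⟩ := hG (a - b) (c - b) (sub_ne_zero.mpr hab) (sub_ne_zero.mpr hbc.symm)
      (fun e => hac (by simpa using e))
    rw [sub_dotProduct] at h1 h2
    refine ⟨i, ?_⟩
    simp only [f]
    revert h1 h2
    generalize a ⬝ᵥ G i = x
    generalize b ⬝ᵥ G i = y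
    generalize c ⬝ᵥ G i = z
    revert x y z
    decide
  have hcardV : Fintype.card (Fin k → ZMod 2) = 2 ^ k := by simp
  have h4 : 4 ≤ Fintype.card (Fin k → ZMod 2) := by
    rw [hcardV]
    calc 4 = 2 ^ 2 := by norm_num
      _ ≤ 2 ^ k := Nat.pow_le_pow_right (by norm_num) hk
  have hinj : Function.Injective f := by
    intro a b hab
    by_contra hne
    obtain ⟨c, hc⟩ : ∃ c, c ∉ ({a, b} : Finset (Fin k → ZMod 2)) := by
      by_contra hcon
      push Not at hcon
      have : Fintype.card (Fin k → ZMod 2) ≤ ({a, b} : Finset (Fin k → ZMod 2)).card := by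
        rw [← Finset.card_univ]
        exact Finset.card_le_card (fun x _ => hcon x)
      have h2 := Finset.card_le_two (a := a) (b := b)
      omega
    simp only [mem_insert, mem_singleton, not_or] at hc
    obtain ⟨i, hi1, hi2⟩ := hsep a b c hne (fun e => hc.2 e.symm) (fun e => hc.1 e.symm)
    exact hi2 (by rw [hab])
  have hgood : Good f := ⟨hinj, hsep⟩
  unfold gp
  apply le_csSup (bdd_gp _)
  refine ⟨im f, good_genPos hgood, ?_⟩
  rw [im, Finset.card_image_of_injective _ hinj, Finset.card_univ, hcardV]

theorem gp_upper_half (n : ℕ) : gp (Q n) ≤ 2 ^ ((n + 1) / 2) + 2 ^ (n / 2) := by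
  have hne0 : ({k | ∃ S : Finset (Fin n → Bool), GenPos (Q n) S ∧ S.card = k} : Set ℕ).Nonempty :=
    ⟨0, ∅, fun x hx => absurd hx (Finset.notMem_empty x), Finset.card_empty⟩
  unfold gp
  apply csSup_le hne0
  rintro k ⟨S, hS, rfl⟩
  obtain ⟨A, _, hA⟩ := Finset.exists_subset_card_eq
    (s := (univ : Finset (Fin n))) (n := (n + 1) / 2) (by simp; omega)
  have := gp_upper A S hS
  rw [Finset.card_compl, hA, Fintype.card_fin] at this
  have e : n - (n + 1) / 2 = n / 2 := by omega
  rwa [e] at this

theorem gp_ge_one (n : ℕ) : 1 ≤ gp (Q n) := by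
  apply le_csSup (bdd_gp _)
  refine ⟨{fun _ => false}, ?_, by simp⟩
  intro x hx y hy z _ hxy _ _
  rw [mem_singleton] at hx hy
  exact absurd (hx.trans hy.symm) hxy

theorem gp_ge_two (n : ℕ) (hn : 1 ≤ n) : 2 ≤ gp (Q n) := by
  classical
  apply le_csSup (bdd_gp _)
  have hne : (fun _ => false : Fin n → Bool) ≠ (fun _ => true) := by
    intro h
    have := congrFun h ⟨0, hn⟩
    simp at this
  refine ⟨{fun _ => false, fun _ => true}, ?_, by rw [Finset.card_pair hne]⟩
  intro x hx y hy z hz hxy hyz hxz
  simp only [mem_insert, mem_singleton] at hx hy hz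
  rcases hx with rfl | rfl <;> rcases hy with rfl | rfl <;> rcases hz with rfl | rfl <;>
    first
      | exact absurd rfl hxy
      | exact absurd rfl hyz
      | exact absurd rfl hxz

/-- exponential growth of the general position number -/
theorem gp_exp (n : ℕ) : 4 ^ n < 4 * 3 ^ n * gp (Q n) ^ 2 := by
  have hgrow : ∀ k : ℕ, 2 ≤ k → 4 ^ k * 3 ^ n ≤ 4 ^ n → 4 ^ n < 4 ^ (k + 1) * 3 ^ n →
      4 ^ n < 4 * 3 ^ n * gp (Q n) ^ 2 := by
    intro k hk h1 h2
    have h3 := gp_lower hk h1
    have h4 : (2 ^ k) ^ 2 ≤ gp (Q n) ^ 2 := Nat.pow_le_pow_left h3 2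
    have h5 : (2 ^ k) ^ 2 = 4 ^ k := by
      rw [← pow_mul, mul_comm, pow_mul]
      norm_num
    rw [h5] at h4
    calc 4 ^ n < 4 ^ (k + 1) * 3 ^ n := h2
      _ = 4 * 3 ^ n * 4 ^ k := by ring
      _ ≤ 4 * 3 ^ n * gp (Q n) ^ 2 := Nat.mul_le_mul_left _ h4
  by_cases hbig : 4 ^ 2 * 3 ^ n ≤ 4 ^ n
  · let P : ℕ → Prop := fun k => 4 ^ n < 4 ^ (k + 1) * 3 ^ n
    have hex : ∃ k, P k := by
      refine ⟨n, ?_⟩
      calc 4 ^ n < 4 ^ (n + 1) := Nat.pow_lt_pow_right (by norm_num) (by omega)
        _ ≤ 4 ^ (n + 1) * 3 ^ n := Nat.le_mul_of_pos_right _ (by positivity)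
    classical
    have h1 : P (Nat.find hex) := Nat.find_spec hex
    by_cases h2 : Nat.find hex ≤ 1
    · exfalso
      have h3 : 4 ^ (Nat.find hex + 1) * 3 ^ n ≤ 4 ^ 2 * 3 ^ n :=
        Nat.mul_le_mul_right _ (Nat.pow_le_pow_right (by norm_num) (by omega))
      have h4 : 4 ^ n < 4 ^ (Nat.find hex + 1) * 3 ^ n := h1
      omega
    · push Not at h2
      have h3 : ¬ P (Nat.find hex - 1) := Nat.find_min hex (by omega)
      have h4 : 4 ^ (Nat.find hex) * 3 ^ n ≤ 4 ^ n := by
        have : ¬ 4 ^ n < 4 ^ (Nat.find hex - 1 + 1) * 3 ^ n := h3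
        rw [Nat.sub_add_cancel (by omega)] at this
        omega
      exact hgrow (Nat.find hex) (by omega) h4 h1
  · push Not at hbig
    rcases Nat.eq_zero_or_pos n with rfl | hn
    · have := gp_ge_one 0
      have h2 : 1 ≤ gp (Q 0) ^ 2 := Nat.one_le_pow _ _ this
      simp only [pow_zero, mul_one]
      omega
    · have h2 : 2 ^ 2 ≤ gp (Q n) ^ 2 := Nat.pow_le_pow_left (gp_ge_two n hn) 2
      calc 4 ^ n < 4 ^ 2 * 3 ^ n := hbig
        _ = 4 * 3 ^ n * 2 ^ 2 := by ring
        _ ≤ 4 * 3 ^ n * gp (Q n) ^ 2 := Nat.mul_le_mul_left _ h2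

end Pool.Agent.H42.MobQ
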